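import Pool.Agent.T2H77.Toe.Main

/-!
# Toeplitz subshifts of finite topological rank need not be strong Toeplitz subshifts

There is a Toeplitz subshift of topological rank `2` which is not a strong Toeplitz subshift of rank
`R` for any `R`. So there is no function `h` such that every Toeplitz subshift of topological rank
`K` is a strong Toeplitz subshift of rank `h K`.
-/

namespace Pool.Agent.Results.MP_423453_an.NoRankBound

open Pool.Agent.T2H77.Toe

theorem result :
    (∃ X : Set (ℤ → Bool), IsToeplitzSubshift X ∧ HasTopRank X 2 ∧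
      ∀ R : ℕ, ¬ StrongToeplitz X R) ∧
    ¬ ∃ h : ℕ → ℕ, ∀ (A : Type) [Finite A] [TopologicalSpace A] [DiscreteTopology A]
      (X : Set (ℤ → A)) (K : ℕ), 2 ≤ K → IsToeplitzSubshift X → HasTopRank X K →
        StrongToeplitz X (h K) := by
  refine ⟨⟨XX sg, main_toeplitz, main_rank, main_not_strong⟩, ?_⟩
  rintro ⟨h, hh⟩
  exact main_not_strong (h 2) (hh Bool (XX sg) 2 le_rfl main_toeplitz main_rank)

end Pool.Agent.Results.MP_423453_an.NoRankBound
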